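import Pool.Agent.Q51.MD.PR

set_option autoImplicit false

/-!
# Maximal density of sets avoiding the values of a polynomial as differences

For every nonzero polynomial `h` with integer coefficients, `μ(X) = sup_m d_X(m) / m` holds both for
`X = h(ℤ)` and for `X = h(𝒫)`, where `𝒫` is the set of primes.

The definitions (`upperDensity`, `mu`, `classes`, `dX`) are in `Pool/Agent/Q51/MD/Main.lean`.

Proof: Furstenberg's correspondence principle gives a measure preserving flow and a set `E` with
`μ(E ∩ T^{-x} E) = 0` for `x ∈ X`, `x ≠ 0`.  Only the conditional expectation `φ` of `1_E` on the rational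
factor (generated by the sets invariant under some `T^m`) contributes to the averages of
`∫ 1_E · 1_E ∘ T^{h(n)}` over `n ≡ c mod M`, and over the primes `p ≡ c mod M` if `c` is coprime to `M`;
hence `φ · φ ∘ T^{h(c)} = 0`.  With `E' = {φ > 0}` and `ψ_m = E(1_{E'} | T^m-invariant sets)` the sets
`S_m = {ψ_m > 1/2}` are `T^m`-invariant, avoid all the differences `h(c)` and contain almost all of `E`,
by the martingale convergence theorem; the orbit of a typical point visits `S_m` along a periodic set.

The averages over primes are handled with Vaughan's identity, Weyl's inequality and the Siegel-Walfisz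
theorem: the exponential sum `∑ log p e(θ h(p))` over the primes `p ≡ c mod M` in `(N, 2N]` is at most
`ε N` unless `θ` is within `O_ε(N^{-deg h})` of a rational with denominator `O_ε(1)`.
-/

namespace Pool.Agent.Results.MP_e70ed2_nt.FullAnswer

open Pool.Agent.Q51.MD Polynomial

theorem result : ∀ h : ℤ[X], h ≠ 0 →
    (mu (Set.range fun n : ℤ => h.eval n) =
      sSup {q : ℝ | ∃ m : ℕ, 1 ≤ m ∧ q = (dX (Set.range fun n : ℤ => h.eval n) m : ℝ) / m}) ∧
    (mu {x : ℤ | ∃ p : ℕ, p.Prime ∧ x = h.eval (p : ℤ)} =
      sSup {q : ℝ | ∃ m : ℕ, 1 ≤ m ∧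
        q = (dX {x : ℤ | ∃ p : ℕ, p.Prime ∧ x = h.eval (p : ℤ)} m : ℝ) / m}) := by
  intro h _
  rcases Nat.eq_zero_or_pos h.natDegree with h0 | h0
  · obtain ⟨a, ha⟩ : ∃ a, h = C a := ⟨_, eq_C_of_natDegree_eq_zero h0⟩
    constructor
    · apply mu_eq (R := fun _ => ∅)
      apply nice_finite
      apply Set.Finite.subset (Set.finite_singleton a)
      rintro _ ⟨n, rfl⟩
      rw [ha]
      simp
    · apply mu_eq (R := fun _ => ∅)
      apply nice_finite
      apply Set.Finite.subset (Set.finite_singleton a)
      rintro _ ⟨p, _, rfl⟩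
      rw [ha]
      simp
  · exact ⟨mu_eq (nice_poly h h0), mu_eq (nice_primes h h0)⟩

end Pool.Agent.Results.MP_e70ed2_nt.FullAnswer
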